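import Mathlib
import Pool.Agent.WC2.Verifier
import Pool.Agent.WC2.Hard

/-!
# MP_9101e1_lc: the problem 2-WC is NP-complete

The instances produced by the reductions are moreover `S`-weight colourable for every two-element
set `S` of non-zero reals.
-/

set_option autoImplicit false

namespace Pool.Agent.Results.MP_9101e1_lc.TwoWCComplete

open Pool.Agent.WC2 Pool.Agent.PT

theorem result :
    NPComplete TwoWC ∧
    ∀ (Γ : Type) [Fintype Γ] (L : Set (List Γ)), InNP L →
      ∃ f : List Γ → List Bool, PolyTime f ∧ ∀ x : List Γ, (x ∈ L ↔ f x ∈ TwoWC) ∧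
        ∃ (n : ℕ) (G : SimpleGraph (Fin n)), f x = adjBits G ∧
          ∀ S : Set ℝ, S.ncard = 2 → (0 : ℝ) ∉ S → SColourable G S := by
  refine ⟨⟨inNP, fun Γ _ L hL => ?_⟩, fun Γ _ L hL => hardness L hL⟩
  obtain ⟨f, hf, h⟩ := hardness L hL
  exact ⟨f, hf, fun x => (h x).1⟩

end Pool.Agent.Results.MP_9101e1_lc.TwoWCComplete
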